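import Mathlib
import Pool.Agent.W136.SqOmitOne
import Pool.Agent.W136.SqOmitAdj
import Pool.Agent.W136.SqOmitAlt

set_option autoImplicit false

namespace Pool.Agent.Results.MP_3e7293_co.FourPatterns

/-- `p, q, r, s` are, in this cyclic order, the vertices of a unit square, and all of them lie in
the closed ball of radius `37/20` about `c`. -/
def SquareNear (c p q r s : EuclideanSpace ℝ (Fin 3)) : Prop :=
  ‖q - p‖ = 1 ∧ ‖s - p‖ = 1 ∧ inner ℝ (q - p) (s - p) = (0 : ℝ) ∧ r = q + s - p ∧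
    ‖p - c‖ ≤ 37 / 20 ∧ ‖q - c‖ ≤ 37 / 20 ∧ ‖r - c‖ ≤ 37 / 20 ∧ ‖s - c‖ ≤ 37 / 20

def al1 (a b c d : Bool) : Bool :=
  (a && b && !(c && d)) || (c && d && !(a && b)) || (xor a b && xor c d)

def al2 (a b c d : Bool) : Bool := (xor (xor a b) (xor c d)) || (!(xor a d) && xor a b)

def al3 (a b c d : Bool) : Bool := (xor (xor a b) (xor c d)) || (xor a d && xor b c)

theorem v1 : ∀ x ∈ Pool.W136.Sq.OmitOne.kinds, Pool.W136.Sq.Valid al1 x.1 x.2 := by
  intro x hx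
  simp only [Pool.W136.Sq.OmitOne.kinds, List.mem_cons, List.not_mem_nil, or_false] at hx
  rcases hx with rfl | rfl | rfl | rfl | rfl <;> intro a b c d <;> cases a <;> cases b <;>
    cases c <;> cases d <;> simp [al1, Nat.testBit]

theorem v2 : ∀ x ∈ Pool.W136.Sq.OmitAdj.kinds, Pool.W136.Sq.Valid al2 x.1 x.2 := by
  intro x hx
  simp only [Pool.W136.Sq.OmitAdj.kinds, List.mem_cons, List.not_mem_nil, or_false] at hx
  rcases hx with rfl | rfl | rfl | rfl | rfl | rfl <;> intro a b c d <;> cases a <;> cases b <;>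
    cases c <;> cases d <;> simp [al2, Nat.testBit]

theorem v3 : ∀ x ∈ Pool.W136.Sq.OmitAlt.kinds, Pool.W136.Sq.Valid al3 x.1 x.2 := by
  intro x hx
  simp only [Pool.W136.Sq.OmitAlt.kinds, List.mem_cons, List.not_mem_nil, or_false] at hx
  rcases hx with rfl | rfl | rfl | rfl <;> intro a b c d <;> cases a <;> cases b <;>
    cases c <;> cases d <;> simp [al3, Nat.testBit]

theorem w (al : Bool → Bool → Bool → Bool → Bool) : Pool.W136.Sq.Valid al 15 15 := by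
  intro a b c d _
  cases a <;> simp [Nat.testBit]

theorem near_of {c p q s : EuclideanSpace ℝ (Fin 3)}
    (h : ∀ y ∈ ({p, q, s, q + s - p} : Set (EuclideanSpace ℝ (Fin 3))),
      40000 * ‖y - c‖ ^ 2 ≤ (((136900 : Int) : ℝ)))
    (h1 : ‖q - p‖ = 1) (h2 : ‖s - p‖ = 1) (h3 : inner ℝ (q - p) (s - p) = (0 : ℝ)) :
    SquareNear c p q (q + s - p) s := by
  have key : ∀ y ∈ ({p, q, s, q + s - p} : Set (EuclideanSpace ℝ (Fin 3))), ‖y - c‖ ≤ 37 / 20 := by
    intro y hy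
    have := h y hy
    have h0 : 0 ≤ ‖y - c‖ := norm_nonneg _
    push_cast at this
    nlinarith
  exact ⟨h1, h2, h3, rfl, key _ (by simp), key _ (by simp), key _ (by simp), key _ (by simp)⟩

theorem rot {c p q r s : EuclideanSpace ℝ (Fin 3)} (h : SquareNear c p q r s) :
    SquareNear c q r s p := by
  obtain ⟨a1, a2, a3, a4, a5, a6, a7, a8⟩ := h
  have e1 : r - q = s - p := by rw [a4]; abel
  refine ⟨by rw [e1]; exact a2, by rw [norm_sub_rev]; exact a1, ?_, by rw [a4]; abel, a6, a7, a8, a5⟩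
  rw [e1, ← neg_sub q p, inner_neg_right, real_inner_comm, a3, neg_zero]

theorem h1 : ∀ x A B C D : Fin 2, ¬(B = A ∧ D = A ∧ C = A) →
    ¬(A = x ∧ B ≠ x ∧ D ≠ x ∧ C ≠ x) → ¬(B = x ∧ D ≠ x ∧ C ≠ x ∧ A ≠ x) →
    ¬(D = x ∧ C ≠ x ∧ A ≠ x ∧ B ≠ x) → ¬(C = x ∧ A ≠ x ∧ B ≠ x ∧ D ≠ x) →
    al1 (decide (A = x)) (decide (B = x)) (decide (C = x)) (decide (D = x)) = true := by
  intro x A B C D
  fin_cases x <;> fin_cases A <;> fin_cases B <;> fin_cases C <;> fin_cases D <;> simp [al1]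

theorem h2 : ∀ x A B C D : Fin 2, ¬(B = A ∧ D = A ∧ C = A) →
    ¬(A = B ∧ D = C ∧ A ≠ D) → ¬(B = D ∧ C = A ∧ B ≠ C) →
    al2 (decide (A = x)) (decide (B = x)) (decide (C = x)) (decide (D = x)) = true := by
  intro x A B C D
  fin_cases x <;> fin_cases A <;> fin_cases B <;> fin_cases C <;> fin_cases D <;> simp [al2]

theorem h3 : ∀ x A B C D : Fin 2, ¬(B = A ∧ D = A ∧ C = A) →
    ¬(A = D ∧ B = C ∧ A ≠ B) →
    al3 (decide (A = x)) (decide (B = x)) (decide (C = x)) (decide (D = x)) = true := by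
  intro x A B C D
  fin_cases x <;> fin_cases A <;> fin_cases B <;> fin_cases C <;> fin_cases D <;> simp [al3]

/-- Every closed ball of radius `37/20` contains a monochromatic unit square or unit squares of all
four other colour patterns. -/
theorem result (f : EuclideanSpace ℝ (Fin 3) → Fin 2) (c : EuclideanSpace ℝ (Fin 3)) :
    (∃ p q r s, SquareNear c p q r s ∧ f q = f p ∧ f r = f p ∧ f s = f p) ∨
      ((∀ x : Fin 2, ∃ p q r s, SquareNear c p q r s ∧ f p = x ∧ f q ≠ x ∧ f r ≠ x ∧ f s ≠ x) ∧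
        (∃ p q r s, SquareNear c p q r s ∧ f p = f q ∧ f r = f s ∧ f p ≠ f r) ∧
        (∃ p q r s, SquareNear c p q r s ∧ f p = f r ∧ f q = f s ∧ f p ≠ f q)) := by
  by_cases hm : ∃ p q r s, SquareNear c p q r s ∧ f q = f p ∧ f r = f p ∧ f s = f p
  · exact Or.inl hm
  refine Or.inr ⟨?_, ?_, ?_⟩
  · intro x
    by_contra hx
    refine Pool.W136.Sq.OmitOne.false_of al1 v1 (w _) f c x ?_
    intro p q s hb g1 g2 g3
    have hn := near_of hb g1 g2 g3
    refine h1 x _ _ _ _ (fun h => hm ⟨_, _, _, _, hn, h.1, h.2.1, h.2.2⟩)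
      (fun h => hx ⟨_, _, _, _, hn, h.1, h.2.1, h.2.2.1, h.2.2.2⟩)
      (fun h => hx ⟨_, _, _, _, rot hn, h.1, h.2.1, h.2.2.1, h.2.2.2⟩)
      (fun h => hx ⟨_, _, _, _, rot (rot hn), h.1, h.2.1, h.2.2.1, h.2.2.2⟩)
      (fun h => hx ⟨_, _, _, _, rot (rot (rot hn)), h.1, h.2.1, h.2.2.1, h.2.2.2⟩)
  · by_contra hx
    refine Pool.W136.Sq.OmitAdj.false_of al2 v2 (w _) f c 0 ?_
    intro p q s hb g1 g2 g3
    have hn := near_of hb g1 g2 g3
    refine h2 0 _ _ _ _ (fun h => hm ⟨_, _, _, _, hn, h.1, h.2.1, h.2.2⟩)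
      (fun h => hx ⟨_, _, _, _, hn, h.1, h.2.1, h.2.2⟩)
      (fun h => hx ⟨_, _, _, _, rot hn, h.1, h.2.1, h.2.2⟩)
  · by_contra hx
    refine Pool.W136.Sq.OmitAlt.false_of al3 v3 (w _) f c 0 ?_
    intro p q s hb g1 g2 g3
    have hn := near_of hb g1 g2 g3
    refine h3 0 _ _ _ _ (fun h => hm ⟨_, _, _, _, hn, h.1, h.2.1, h.2.2⟩)
      (fun h => hx ⟨_, _, _, _, hn, h.1, h.2.1, h.2.2⟩)

end Pool.Agent.Results.MP_3e7293_co.FourPatterns
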